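import Pool.Agent.Work.MP_db9399_cg.Interface

/-!
# MP_db9399, SWG: the palette classes of the outside stage, with gadgets (helper48)

Notes 1532, 1560, 1562, 1564 on MP_db9399_co. The machine of cg for palette classes. `H` = real
edges of one class, `O` = vertices all of whose edges are real (OUT and V_0), the other active
vertices lie in gadgets `nd v = some (i, s)` (node `i`, side `s`): light vertices of the pieces and
dummies. The edges which are not real join the two sides of a gadget; their colours are forgotten at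
the end. Tokens live on `O` only (frozen tokens of gadgets are inactive). `D` = degree of the class,
`A` = vertices which take part in the class.
HOST, TOKN, FILL, KERX: one class. AN, KMLN, ENGN: all classes at once (`cl b` = class of the colour
`b`, `S j` = reserve of the class `j`), because `K`, `Km` serve all classes.
-/

set_option autoImplicit false

namespace Pool.Agent.Work.MP_db9399_sg

open Finset Classical
open Pool.Agent.Work.MP_db9399_all (nb mis)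
open Pool.Agent.Work.MP_db9399_cg (cdg pk sx sp)
open Pool.Agent.Work.MP_db9399_en (HH wlk resE resO Wts)

universe u

section Defs

variable {V I : Type u} [Fintype V] [Fintype I]

/-- the vertices of the node `i` on the side `s` -/
noncomputable def nsd (nd : V → Option (I × Bool)) (i : I) (s : Bool) : Finset V :=
  univ.filter fun v => nd v = some (i, s)

/-- the vertices of the node `i` -/
noncomputable def nod (nd : V → Option (I × Bool)) (i : I) : Finset V :=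
  univ.filter fun v => ∃ s, nd v = some (i, s)

/-- two-step boundary -/
noncomputable def cut2 (S : SimpleGraph V) (R : ℕ) (T : Finset V) : ℝ :=
  ∑ u ∈ T, ∑ w ∈ univ \ T, cdg S u w / (R : ℝ) ^ 2

/-- what the kernel lemma needs from the reserve: degrees, small sets expand, near-closed sets have
few vertices in `O`, few edges from the gadgets to `O` -/
structure ClS (S : SimpleGraph V) (D r : ℕ) (O A : Finset V) (MS g δ β c1 : ℝ) : Prop where
  sup : ∀ v w, S.Adj v w → v ∈ A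
  lo : ∀ v ∈ A, r ≤ (nb S v).card
  hi : ∀ v, (nb S v).card ≤ r + 2
  sm : ∀ T : Finset V, T ⊆ A → (T.card : ℝ) ≤ c1 * D → c1 * T.card ≤ cut2 S (r + 2) T
  cl : ∀ T : Finset V, T ⊆ A → (T.card : ℝ) ≤ MS * D → cut2 S (r + 2) T ≤ g * D →
    ((T ∩ O).card : ℝ) ≤ δ * D
  cr : ∀ v, v ∉ O → ((nb S v ∩ O).card : ℝ) ≤ β * r

/-- averaged kernel, difference of the even and the odd part -/
noncomputable def kk (S : SimpleGraph V) (r L : ℕ) (v x : V) : ℝ :=
  (∑ l ∈ Ico L (2 * L), (pk S r (2 * l) v x - pk S r (2 * l - 1) v x)) / L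

/-- averaged kernel, even part -/
noncomputable def k0 (S : SimpleGraph V) (r L : ℕ) (v x : V) : ℝ :=
  (∑ l ∈ Ico L (2 * L), pk S r (2 * l) v x) / L

/-- averaged kernel, odd part -/
noncomputable def k1 (S : SimpleGraph V) (r L : ℕ) (v x : V) : ℝ :=
  (∑ l ∈ Ico L (2 * L), pk S r (2 * l - 1) v x) / L

/-- the weights of the engine which belong to `k0` -/
noncomputable def wt0 (L i : ℕ) : ℝ := (((Ico L (2 * L)).filter fun l => i < 2 * l).card : ℝ) / L

/-- the weights of the engine which belong to `k1` -/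
noncomputable def wt1 (L i : ℕ) : ℝ :=
  (((Ico L (2 * L)).filter fun l => i < 2 * l - 1).card : ℝ) / L

/-- The world of one class: `Gh` = real edges `H` and host edges of the gadgets. -/
structure Wld (H Gh : SimpleGraph V) (O A Ex : Finset V) (nd : V → Option (I × Bool)) (D : ℕ)
    (MS g δ β c1 C ρ0 : ℝ) : Prop where
  HG : H ≤ Gh
  OA : O ⊆ A
  nA : ∀ v, nd v ≠ none → v ∈ A
  cov : ∀ v ∈ A, v ∈ O ↔ nd v = none
  sup : ∀ v w, Gh.Adj v w → v ∈ A
  gad : ∀ v w, Gh.Adj v w → ¬ H.Adj v w → ∃ i s, nd v = some (i, s) ∧ nd w = some (i, !s)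
  deg : ∀ v ∈ A, v ∉ Ex → (nb Gh v).card = D
  dex : ∀ v ∈ A, (nb Gh v).card ≤ D ∧ D ≤ (nb Gh v).card + 1
  exc : ∀ v, ((nb Gh v ∩ Ex).card : ℝ) ≤ ρ0 * D
  lgt : ∀ v, v ∉ O → ((nb H v).card : ℝ) ≤ β * D
  sz : ∀ i, (nsd nd i false).card = (nsd nd i true).card
  sz1 : ∀ i s, 8 * D ≤ (nsd nd i s).card
  sz2 : ∀ i s, ((nsd nd i s).card : ℝ) ≤ C * D
  sm : ∀ T : Finset V, T ⊆ A → (T.card : ℝ) ≤ c1 * D → c1 * T.card ≤ cut2 Gh D T
  cl : ∀ T : Finset V, T ⊆ A → (T.card : ℝ) ≤ MS * D → cut2 Gh D T ≤ g * D →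
    ((T ∩ O).card : ℝ) ≤ δ * D

/-- The reserve of one class (compare `cg.Res`). `eg`: the edges of `Gh` outside `S` have degree at
most `D - r - 1`; `lg`: few real edges in the reserve at the vertices outside `O` (`ρ2` much smaller
than `ρ0`). -/
structure ResN (H Gh S : SimpleGraph V) (O A : Finset V) (D r : ℕ) (a gS δS βS c1 ρ0 ρ2 MS : ℝ)
    (K Exc : Finset V) : Prop where
  sub : S ≤ Gh
  eg : ∀ v ∈ A, (nb Gh v).card + r + 1 ≤ (nb S v).card + D
  lg : ∀ v, v ∉ O → (((nb S v).filter fun w => H.Adj v w).card : ℝ) ≤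
    (2 * ((nb H v).card / D) + ρ2) * r
  rlo : (D : ℝ) ^ (1 - a) ≤ r
  rhi : (r : ℝ) ≤ (D : ℝ) ^ (1 - a / 3)
  cl : ClS S D r O A MS gS δS βS c1
  off : ∀ v ∈ A, v ∉ Exc → (nb S v).card = r + 1
  exc : ∀ v, ((nb S v ∩ Exc).card : ℝ) ≤ ρ0 * r
  K1 : ∀ v ∈ K, ∀ w ∈ K, ¬ S.Adj v w
  K2 : ∀ v ∈ A, v ∉ K → (r : ℝ) / 129 ≤ ((nb S v ∩ K).card : ℝ)
  K3 : ∀ v ∈ A, (r : ℝ) / 3 ≤ ((nb S v \ K).card : ℝ)

/-- signed number of the vertices of the node `i` which have an edge of colour `b` in `N` -/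
noncomputable def sgn {P : ℕ} (nd : V → Option (I × Bool)) (N : Fin P → V → V) (i : I)
    (b : Fin P) : ℤ :=
  (((nsd nd i false).filter fun v => N b v ≠ v).card : ℤ) -
    ((nsd nd i true).filter fun v => N b v ≠ v).card

/-- matchings of the edges of `E` -/
structure Mts {P : ℕ} (E : SimpleGraph V) (N : Fin P → V → V) : Prop where
  NN : ∀ b v, N b (N b v) = v
  NG : ∀ b v, N b v ≠ v → E.Adj v (N b v)
  Nd : ∀ b b' v, N b v ≠ v → N b v = N b' v → b = b'

/-- tests supported on `O`: `ℓ²` small -/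
structure TstN {J : Type u} [Fintype J] (O : Finset V) (k : J → V → ℝ) (D : ℕ) (a C e : ℝ) :
    Prop where
  O : ∀ j x, x ∉ O → k j x = 0
  sup : ∀ j x, |k j x| ≤ C / D
  l2 : ∀ j, ∑ x, k j x ^ 2 ≤ e / D
  l1 : ∀ j, ∑ x, |k j x| ≤ 3
  supp : ∀ j, ((univ.filter fun x => k j x ≠ 0).card : ℝ) ≤ sx D a
  mult : ∀ x, ((univ.filter fun j => k j x ≠ 0).card : ℝ) ≤ sx D a

/-- the tokens of the colour `b` -/
noncomputable def tkN {P : ℕ} (O : Finset V) (c : V → Option (Fin P)) (N : Fin P → V → V)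
    (b : Fin P) : Finset V :=
  O.filter fun v => c v ≠ some b ∧ (N b v = v ∨ c (N b v) = some b)

/-- the tokens with the label `s` -/
noncomputable def tksN {P : ℕ} (O : Finset V) (c : V → Option (Fin P)) (N : Fin P → V → V)
    (lab : Fin P → V → Bool) (b : Fin P) (s : Bool) : Finset V :=
  (tkN O c N b).filter fun v => lab b v = s

/-- the frozen vertices of the colour `b` -/
noncomputable def fzN {P : ℕ} (O : Finset V) (c : V → Option (Fin P)) (N : Fin P → V → V)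
    (b : Fin P) : Finset V :=
  univ.filter fun v => v ∉ O ∧ (N b v = v ∨ c (N b v) = some b)

/-- All classes together: reserves `S j`, matchings `N b` of the colours, own colours `c` (only on
`O`). `G` contains all edges: those of the `N b`, of the `S j` and left over edges. `A j` = active
vertices of the class `j`, `nn j v` = node of the gadget vertex `v` in the class `j`. -/
structure AllN {J : Type u} [Fintype J] {P : ℕ} (G : SimpleGraph V) (S : J → SimpleGraph V)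
    (cl : Fin P → J) (O : Finset V) (A : J → Finset V) (nn : J → V → Option I) (d K0 T0 : ℕ)
    (r : J → ℕ) (c : V → Option (Fin P)) (N : Fin P → V → V) : Prop where
  Pd : P ≤ 2 * d
  rd : ∀ j, r j ≤ d
  dG : ∀ v, (nb G v).card ≤ K0 * d
  SG : ∀ j, S j ≤ G
  SS : ∀ j j' v w, j ≠ j' → (S j).Adj v w → ¬ (S j').Adj v w
  Sa : ∀ j v w, (S j).Adj v w → v ∈ A j
  dS1 : ∀ j, ∀ v ∈ A j, r j ≤ (nb (S j) v).card
  dS2 : ∀ j v, (nb (S j) v).card ≤ r j + K0
  cO : ∀ v, c v ≠ none → v ∈ O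
  cp : ∀ v w, G.Adj v w → c v ≠ none → c v ≠ c w
  mts : Mts G N
  NS : ∀ b v j, ¬ (S j).Adj v (N b v)
  Na : ∀ b v, N b v ≠ v → v ∈ A (cl b)
  tk1 : ∀ v, (univ.filter fun b => v ∈ tkN O c N b).card ≤ K0
  tk2 : ∀ b v, ((nb (S (cl b)) v).filter fun w => w ∈ tkN O c N b).card ≤ T0
  ow : ∀ b v, ((nb (S (cl b)) v).filter fun w => c w = some b ∨ w ∈ fzN O c N b).card ≤ T0
  AO : ∀ j, O ⊆ A j
  An : ∀ j v, nn j v ≠ none ↔ v ∈ A j ∧ v ∉ O
  sz : ∀ j i, ((univ.filter fun v => nn j v = some i).card : ℝ) ≤ K0 * d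

/-- sum of the absolute values of the residuals of colour `b` -/
noncomputable def resN {P : ℕ} (S : SimpleGraph V) (r L : ℕ) (θ θ' : ℕ → ℝ) (O : Finset V)
    (c : V → Option (Fin P)) (N : Fin P → V → V) (lab : Fin P → V → Bool) (b : Fin P) (v : V) :
    ℝ :=
  ∑ s : Bool, (|resE S r L θ θ' (tksN O c N lab b s) (tksN O c N lab b (!s)) v| +
    |resO S r L θ θ' (tksN O c N lab b s) (tksN O c N lab b (!s)) v|)

/-- The sets `K`, `Km`. -/
structure KmN {J : Type u} {P : ℕ} (G : SimpleGraph V) (S : J → SimpleGraph V)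
    (O : Finset V) (A : J → Finset V) (r : J → ℕ) (ρ : ℝ) (c : V → Option (Fin P))
    (N : Fin P → V → V) (K Km : Finset V) : Prop where
  K1 : ∀ j, ∀ v ∈ K, ∀ w ∈ K, ¬ (S j).Adj v w
  K2 : Km ⊆ K
  KO : Km ⊆ O
  K3 : ∀ v ∈ Km, ∀ w ∈ Km, G.Adj v w → ∃ b, N b v = w ∧ c v ≠ some b ∧ c w ≠ some b
  K4 : ∀ j, ∀ v ∈ A j, v ∉ K → ρ * r j ≤ (((nb (S j) v).filter fun w => w ∈ Km ∨ w ∉ O).card : ℝ)
  K5 : ∀ j, ∀ v ∈ A j, (r j : ℝ) / 4 ≤ (((nb (S j) v).filter fun w => w ∉ K).card : ℝ)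

/-- the new missing colours of the node `i` of the class `j` -/
noncomputable def mss {J : Type u} {P : ℕ} (O : Finset V) (nn : J → V → Option I)
    (c : V → Option (Fin P)) (N F : Fin P → V → V) (j : J) (i : I) (b : Fin P) : ℝ :=
  ((univ.filter fun v => nn j v = some i ∧ F b v = v ∧ v ∉ fzN O c N b).card : ℝ)

/-- The output of the engine: new matchings `F b`. Missing colours on `O` only at vertices of `Km`,
at most one per vertex (over all classes); the vertices with a missing colour are independent in the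
left over graph; few of the colours in `R v` are changed at `v` (`Ft`), few vertices of a node are
changed in one colour (`Fw`), both without the frozen ones; few new missing colours in every node: at most `B0` per colour, sum at
most `ε` times the size. -/
structure OutN {J : Type u} {P : ℕ} (G : SimpleGraph V) (S : J → SimpleGraph V)
    (cl : Fin P → J) (O : Finset V) (nn : J → V → Option I) (d : ℕ) (r : J → ℕ) (ε ε₀ C₀ B0 : ℝ)
    (R : V → Finset (Fin P)) (c : V → Option (Fin P)) (N : Fin P → V → V) (Km : Finset V)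
    (F : Fin P → V → V) : Prop where
  FF : ∀ b v, F b (F b v) = v
  FG : ∀ b v, F b v ≠ v → F b v = N b v ∨ (S (cl b)).Adj v (F b v)
  Fd : ∀ b b' v, F b v ≠ v → F b v = F b' v → b = b'
  Fo : ∀ b v, c v = some b → F b v = v
  Fz : ∀ b v, v ∈ fzN O c N b → F b v = v
  Fm : ∀ b v, v ∈ O → F b v = v → c v ≠ some b → v ∈ Km
  F1 : ∀ v, v ∈ O → (univ.filter fun b => F b v = v ∧ c v ≠ some b).card ≤ 1
  Fs : ∀ v w b b', v ∈ O → w ∈ O → F b v = v → c v ≠ some b → F b' w = w → c w ≠ some b' →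
    G.Adj v w → ∃ b'', F b'' v = w
  Ft : ∀ j v, (((R v).filter fun b => cl b = j ∧ v ∉ fzN O c N b ∧ F b v ≠ N b v).card : ℝ) ≤
    C₀ * (r j / d) * (R v).card + (d : ℝ) ^ (-ε₀) * r j
  Fw : ∀ j i b, cl b = j →
    ((univ.filter fun v => nn j v = some i ∧ v ∉ fzN O c N b ∧ F b v ≠ N b v).card : ℝ) ≤
      (d : ℝ) ^ (1 - ε₀)
  Fn : ∀ j i b, cl b = j → mss O nn c N F j i b ≤ B0
  Fl : ∀ j i, ∑ b with cl b = j, mss O nn c N F j i b ≤
    ε * (univ.filter fun v => nn j v = some i).card + 4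

/-- local bounds for the own colours (part of the output of OWN) -/
structure OwnN {J : Type u} {P : ℕ} (S : J → SimpleGraph V) (cl : Fin P → J)
    (O : Finset V) (d : ℕ) (r : J → ℕ) (a : ℝ) (c : V → Option (Fin P)) (N : Fin P → V → V) :
    Prop where
  t1 : ∀ x, ((univ.filter fun b => x ∈ tkN O c N b).card : ℝ) ≤ sp d a
  t2 : ∀ b y, (((nb (S (cl b)) y).filter fun x => x ∈ tkN O c N b).card : ℝ) ≤ 2 * sp d a
  av : ∀ j y, (∑ x ∈ nb (S j) y,
    ((univ.filter fun b => N b x ≠ x ∧ c (N b x) = some b).card : ℝ)) ≤ 4 * r j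

end Defs

/-- KERX (helper48): the kernel lemma without killing. `L` is given (one `L` serves all classes). -/
def Stmt_KERX : Prop :=
  ∀ a c1 : ℝ, 0 < a → a ≤ 1 / 100 → 0 < c1 → c1 ≤ 1 → ∃ C1 : ℝ, 0 < C1 ∧ ∀ e : ℝ, 0 < e →
    ∃ (MS δ β : ℝ) (d0 : ℕ), 1 ≤ MS ∧ 0 < δ ∧ 0 < β ∧
    ∀ {V : Type u} [Fintype V] (S : SimpleGraph V) (D r L : ℕ) (O A : Finset V) (g : ℝ), d0 ≤ D →
      (D : ℝ) ^ (-(a / 150)) ≤ g → g ≤ 1 → (D : ℝ) ^ (1 - a) ≤ r → r ≤ D →
      (D : ℝ) ^ (a / 50) ≤ L → (L : ℝ) ≤ (D : ℝ) ^ (a / 30) → ClS S D r O A MS g δ β c1 →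
        (∀ v, ∑ x ∈ O, (k0 S r L v x + k1 S r L v x) ^ 2 ≤ e / D) ∧
        (∀ v x, k0 S r L v x + k1 S r L v x ≤ C1 / D) ∧
        (∀ v, ∑ x, (k0 S r L v x + k1 S r L v x) ≤ 3) ∧
        (∀ v, |∑ x ∈ O, (k0 S r L v x - k1 S r L v x)| ≤ e) ∧
        (∀ v, ((univ.filter fun x => k0 S r L v x + k1 S r L v x ≠ 0).card : ℝ) ≤ sx D a) ∧
        (∀ x, ((univ.filter fun v => k0 S r L v x + k1 S r L v x ≠ 0).card : ℝ) ≤ sx D a)

/-- ENGN: the engine, all classes at once. (W): the sums over the colours of every class of the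
residuals, times the number of classes. `K0` bounds also the number of classes and the size of the
nodes. `R v` = any sets of colours. -/
def Stmt_ENGN : Prop :=
  ∃ (ε₀ c₀ C₀ : ℝ) (d₀ : ℕ), 0 < ε₀ ∧ ε₀ ≤ 1 / 2500 ∧ 0 < c₀ ∧ 0 < C₀ ∧
    ∀ {V I J : Type u} [Fintype V] [Fintype I] [Fintype J] (P : ℕ) (G : SimpleGraph V)
      (S : J → SimpleGraph V) (cl : Fin P → J) (O : Finset V) (A : J → Finset V)
      (nn : J → V → Option I) (d K0 T0 L : ℕ) (r : J → ℕ) (ρ ε : ℝ) (R : V → Finset (Fin P))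
      (c : V → Option (Fin P)) (N : Fin P → V → V) (K Km : Finset V) (lab : Fin P → V → Bool)
      (θ θ' : ℕ → ℝ),
      AllN G S cl O A nn d K0 T0 r c N → KmN G S O A r ρ c N K Km → Wts L θ → Wts L θ' →
      d₀ ≤ d → 1 ≤ K0 → Fintype.card J ≤ K0 → 1 ≤ T0 → ρ ≤ 1 → 0 < ε → ε ≤ 1 →
      (∀ j, (d : ℝ) ^ (1 - ε₀) ≤ r j) →
      (K0 : ℝ) ≤ (d : ℝ) ^ ε₀ → (T0 : ℝ) ≤ (d : ℝ) ^ ε₀ → (L : ℝ) ≤ (d : ℝ) ^ ε₀ →
      (d : ℝ) ^ (-ε₀) ≤ ρ → (d : ℝ) ^ (-ε₀) ≤ ε →
      (∀ j v, (Fintype.card J : ℝ) * ∑ b with cl b = j,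
        resN (S j) (r j) L θ θ' O c N lab b v ≤ c₀ * ρ * ε) →
      ∃ F : Fin P → V → V,
        OutN G S cl O nn d r ε ε₀ C₀ ((d : ℝ) ^ (10 * ε₀)) R c N Km F

/-- FILL: the gadgets are filled by matchings. `N` = matchings of the real edges `H - S`, `W` = the
real vertices of the gadgets, the others are dummies. Greedy: for one colour and one node take
equally many uncovered vertices on both sides, leaving out dummies of the larger side, and Hall
(every vertex has at most `P + q` forbidden partners). -/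
def Stmt_FILL : Prop :=
  ∀ {V I : Type u} [Fintype V] [Fintype I] (H S : SimpleGraph V) (W : Finset V)
    (nd : V → Option (I × Bool)) (P : ℕ) (N : Fin P → V → V) (q : ℕ),
    (∀ i, (nsd nd i false).card = (nsd nd i true).card) →
    (∀ v, (nb H v).card + (nb S v).card ≤ q) →
    (∀ i s, 2 * (nsd nd i s ∩ W).card ≤ (nsd nd i s).card) →
    (∀ i s, 4 * (P + q) ≤ (nsd nd i s).card) →
    Mts H N → (∀ b v, ¬ S.Adj v (N b v)) → (∀ b v, nd v ≠ none → v ∉ W → N b v = v) →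
    ∃ N' : Fin P → V → V, (∀ b v, N' b (N' b v) = v) ∧
      (∀ b v, N b v ≠ v → N' b v = N b v) ∧
      (∀ b v, N b v = v → N' b v ≠ v → ∃ i s, nd v = some (i, s) ∧ nd (N' b v) = some (i, !s) ∧
        ¬ H.Adj v (N' b v) ∧ ¬ S.Adj v (N' b v)) ∧
      (∀ b b' v, N' b v ≠ v → N' b v = N' b' v → b = b') ∧
      (∀ b v, nd v ≠ none → N' b v = v → v ∉ W) ∧
      ∀ i b, ((nod nd i).filter fun v => N' b v = v).card = (sgn nd N i b).natAbs

/-- HOST: gadgets. `nd0` = nodes of the real graph `H` on the real vertices `W` (`A0` = active real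
vertices); `m i` = size of the sides of the gadget `i`. The dummies are `X`. All degrees in the
gadgets are `D`, except `D - 1` at as many dummies as the signed degree sum says. Two vertices on the
same side have many common neighbours (every vertex sees an interval and an arithmetic progression of
the other side). -/
def Stmt_HOST : Prop :=
  ∀ C : ℝ, 1 ≤ C → ∃ (c : ℝ) (d0 : ℕ), 0 < c ∧
    ∀ {W I : Type u} [Fintype W] [Fintype I] (H : SimpleGraph W)
      (nd0 : W → Option (I × Bool)) (D : ℕ) (m : I → ℕ), d0 ≤ D →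
      (∀ v, nd0 v ≠ none → 8 * (nb H v).card ≤ D) → (∀ i s, 4 * (nsd nd0 i s).card ≤ m i) →
      (∀ i, 8 * D ≤ m i) → (∀ i, (m i : ℝ) ≤ C * D) →
      (∀ i, |(∑ v ∈ nsd nd0 i false, ((nb H v).card : ℤ)) -
        ∑ v ∈ nsd nd0 i true, ((nb H v).card : ℤ)| ≤ D) →
      ∃ (X : Type u) (_ : Fintype X) (Gh : SimpleGraph (W ⊕ X)) (nd : W ⊕ X → Option (I × Bool)),
        (∀ v w, Gh.Adj (Sum.inl v) (Sum.inl w) ↔ H.Adj v w) ∧ (∀ v, nd (Sum.inl v) = nd0 v) ∧
        (∀ x, nd (Sum.inr x) ≠ none) ∧ (∀ i s, (nsd nd i s).card = m i) ∧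
        (∀ v x, Gh.Adj v (Sum.inr x) → ∃ i s, nd v = some (i, s) ∧ nd (Sum.inr x) = some (i, !s)) ∧
        (∀ v, nd0 v ≠ none → (nb Gh (Sum.inl v)).card = D) ∧
        (∀ x, (nb Gh (Sum.inr x)).card ≤ D ∧ D ≤ (nb Gh (Sum.inr x)).card + 1) ∧
        (∀ i, ((nod nd i).filter fun v => (nb Gh v).card + 1 = D).card =
          ((∑ v ∈ nsd nd0 i false, ((nb H v).card : ℤ)) -
            ∑ v ∈ nsd nd0 i true, ((nb H v).card : ℤ)).natAbs) ∧
        ∀ i s, ∀ u ∈ nsd nd i s, ∀ w ∈ nsd nd i s, c * D ≤ cdg Gh u w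

/-- AN: the reserves of all classes with a common set `K`, from the blocks A1 - A6 of cg applied to
two copies of `Gh j` joined at the vertices of degree `D j - 1` (labels `K` common to all classes).
The numbers `r j` are given (the sizes of the palettes are `D j - r j`). -/
def Stmt_AN : Prop :=
  ∀ a ρ0 ρ2 MS C δ β c1 : ℝ, 0 < a → a ≤ 1 / 100 → 0 < ρ2 → ρ2 ≤ ρ0 → ρ0 ≤ 1 → 1 ≤ MS → 1 ≤ C →
    0 < δ → 0 < β → 0 < c1 → c1 ≤ 1 → ∃ d0 : ℕ,
    ∀ {V I J : Type u} [Fintype V] [Fintype I] [Fintype J] (H Gh : J → SimpleGraph V)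
      (O : Finset V) (A Ex : J → Finset V)
      (nd : J → V → Option (I × Bool)) (d : ℕ) (D r : J → ℕ) (g : ℝ), d0 ≤ d →
      (∀ j, D j ≤ d ∧ (d : ℝ) ≤ C * D j) → (Fintype.card J : ℝ) ≤ C →
      (d : ℝ) ^ (-(a / 200)) ≤ g → g ≤ 1 →
      (∀ j, Odd (r j) ∧ 2 * (D j : ℝ) ^ (1 - a) ≤ r j ∧ (r j : ℝ) + 2 ≤ (D j : ℝ) ^ (1 - a / 3)) →
      (∀ j, Wld (H j) (Gh j) O (A j) (Ex j) (nd j) (D j) MS g δ β c1 C ρ0) →
      ∃ (S : J → SimpleGraph V) (K : Finset V) (Exc : J → Finset V), ∀ j,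
        ResN (H j) (Gh j) (S j) O (A j) (D j) (r j) a (g / 100) δ (2 * β + 8 * ρ0) (c1 / 100) (8 * ρ0)
          (8 * ρ2) MS K (Exc j) ∧ Ex j ⊆ Exc j

/-- TOKN: the colouring of the real edges `E = H - S` of one class: smooth tokens on `O`, equitable
nodes, small loads. Vizing, chained Kempe coins. Two levels: nodes `i` (parts) and pieces `pr i`;
chains link ends first inside a node, then the unlinked ends inside the piece. -/
def Stmt_TOKN : Prop :=
  ∀ a ε C : ℝ, 0 < a → a ≤ 1 / 100 → 0 < ε → 1 ≤ C → ∃ e : ℝ, 0 < e ∧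
    ∀ C' : ℝ, 1 ≤ C' → ∃ d0 : ℕ, ∀ {V I I' J : Type u} [Fintype V] [Fintype I] [Fintype I'] [Fintype J] (E S : SimpleGraph V)
      (O : Finset V) (nd : V → Option (I × Bool)) (pr : I → I') (D P r : ℕ) (k : J → V → ℝ),
      d0 ≤ D → (∀ i', (univ.filter fun i => pr i = i').card ≤ 2) →
      (∀ v ∈ O, nd v = none) → (∀ i s, ((nsd nd i s).card : ℝ) ≤ C' * D) →
      (D : ℝ) ≤ 2 * P → P ≤ D + 1 → r ≤ D → (∀ v, (nb S v).card ≤ r + 2) →
      (∀ v, (nb E v).card + 1 ≤ P) → (∀ v ∈ O, P ≤ (nb E v).card + 4) →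
      (∀ v, nd v ≠ none → 8 * (nb E v).card ≤ D) → TstN O k D a C e →
      ∃ N : Fin P → V → V, Mts E N ∧ (∀ v w, E.Adj v w → ∃ b, N b v = w) ∧
        (∀ b v, (((nb S v ∩ O).filter fun w => N b w = w).card : ℝ) ≤ sp D a) ∧
        (∀ i b, |(sgn nd N i b : ℝ) - (∑ b', (sgn nd N i b' : ℝ)) / P| ≤ 2) ∧
        (∀ i, ∑ b, |(sgn nd N i b : ℝ) - (∑ b', (sgn nd N i b' : ℝ)) / P| ≤ (1 + ε) * P) ∧
        (∀ i' b, |(∑ i with pr i = i', (sgn nd N i b : ℝ)) -
          (∑ b', ∑ i with pr i = i', (sgn nd N i b' : ℝ)) / P| ≤ 2) ∧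
        (∀ i', ∑ b, |(∑ i with pr i = i', (sgn nd N i b : ℝ)) -
          (∑ b', ∑ i with pr i = i', (sgn nd N i b' : ℝ)) / P| ≤ (1 + ε) * P) ∧
        (∀ i s b, (((nsd nd i s).filter fun v => N b v ≠ v).card : ℝ) ≤
          8 * ((∑ v ∈ nsd nd i s, ((nb E v).card : ℝ)) / P) + sp D a) ∧
        ∀ j, ∑ b, |(∑ x ∈ O.filter (fun x => N b x = x), k j x) -
          (∑ x ∈ O, k j x * ((univ.filter fun b => N b x = x).card : ℝ)) / P| ≤ ε

/-- KMLN: the set `Km` and the labels, all classes at once. Test `t` belongs to the class `jt t`. -/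
def Stmt_KMLN : Prop :=
  ∀ a C : ℝ, 0 < a → a ≤ 1 / 100 → 1 ≤ C → ∃ ρ : ℝ, 0 < ρ ∧ ρ ≤ 1 ∧ ∀ ε : ℝ, 0 < ε →
    ∃ (e : ℝ) (d0 : ℕ), 0 < e ∧
    ∀ {V I J τ : Type u} [Fintype V] [Fintype I] [Fintype J] [Fintype τ] (P : ℕ)
      (G : SimpleGraph V) (S : J → SimpleGraph V) (cl : Fin P → J) (O : Finset V)
      (A : J → Finset V) (nn : J → V → Option I) (d K0 T0 : ℕ) (r : J → ℕ)
      (jt : τ → J) (p q : τ → V → ℝ) (N : Fin P → V → V) (c : V → Option (Fin P))
      (K : Finset V), d0 ≤ d → AllN G S cl O A nn d K0 T0 r c N → OwnN S cl O d r a c N →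
      (Fintype.card J : ℝ) ≤ C → (∀ v, ((nb G v).card : ℝ) ≤ C * d) →
      (∀ j, (d : ℝ) ^ (1 - a) ≤ r j) → (∀ j, ∀ v ∈ K, ∀ w ∈ K, ¬ (S j).Adj v w) →
      (∀ v, (((nb G v).filter fun w => (¬ ∃ b, N b v = w) ∧ ¬ ∃ j, (S j).Adj v w).card : ℝ) ≤ C) →
      (∀ j, ∀ v ∈ A j, v ∉ K → (r j : ℝ) / 130 ≤ ((nb (S j) v ∩ K).card : ℝ)) →
      (∀ j, ∀ v ∈ A j, (r j : ℝ) / 4 ≤ (((nb (S j) v).filter fun w => w ∉ K).card : ℝ)) →
      (∀ t x, 0 ≤ p t x) → (∀ t x, 0 ≤ q t x) → TstN O (fun t x => p t x + q t x) d a C e →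
      (∀ t, ∑ x, (p t x + q t x) ^ 2 *
        ((univ.filter fun b => cl b = jt t ∧ x ∈ tkN O c N b).card : ℝ) ≤ e / d) →
      (∀ t b, cl b = jt t → ∑ x ∈ tkN O c N b, (p t x + q t x) ≤ (d : ℝ) ^ (-(3 / 4) : ℝ)) →
      ∃ (Km : Finset V) (lab : Fin P → V → Bool), KmN G S O A r ρ c N K Km ∧
        (∀ t, ∑ b with cl b = jt t, ∑ s : Bool,
          |∑ x ∈ tksN O c N lab b s, p t x - ∑ x ∈ tksN O c N lab b (!s), q t x| ≤
          ∑ b with cl b = jt t, |∑ x ∈ tkN O c N b, (p t x - q t x)| + ε) ∧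
        ∀ t, ∑ b with cl b = jt t, ∑ s : Bool,
          (∑ x ∈ tksN O c N lab b s, p t x - ∑ x ∈ tksN O c N lab b (!s), q t x) ^ 2 ≤
          ∑ b with cl b = jt t, (∑ x ∈ tkN O c N b, (p t x - q t x)) ^ 2 + ε / d

/-- RESTN: the left over real edges `E` with `q` colours: degree `q` only on an independent set,
small degrees at the nodes (here `nd` = pieces and their sides). Fournier, then EQUITABLE. -/
def Stmt_RESTN : Prop :=
  ∀ C : ℝ, 1 ≤ C → ∃ (d0 : ℕ),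
    ∀ {V I : Type u} [Fintype V] [Fintype I] (E : SimpleGraph V) (nd : V → Option (I × Bool))
      (d q : ℕ), d0 ≤ d → (d : ℝ) ^ (98 / 100 : ℝ) ≤ q → q ≤ d →
      (∀ v, (nb E v).card ≤ q) → (∀ v w, E.Adj v w → (nb E v).card < q ∨ (nb E w).card < q) →
      (∀ i s, ((nsd nd i s).card : ℝ) ≤ C * d) →
      ∃ N : Fin q → V → V, Mts E N ∧ (∀ v w, E.Adj v w → ∃ b, N b v = w) ∧
        (∀ i b, |(sgn nd N i b : ℝ) - (∑ b', (sgn nd N i b' : ℝ)) / q| ≤ 2) ∧
        ∀ i s b, (((nsd nd i s).filter fun v => N b v ≠ v).card : ℝ) ≤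
          (∑ v ∈ nsd nd i s, ((nb E v).card : ℝ)) / q + 4

end Pool.Agent.Work.MP_db9399_sg
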